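import Pool.Agent.TH206.WLP.Dim

/-!
Fröberg's formula for spaces of forms of the same degree.
-/

set_option autoImplicit false

namespace Pool.Agent.TH206.FroE

open MvPolynomial Module Pool.Agent.TH206.Fro Pool.Agent.TH206.WLP

/-- the generic dimensions -/
theorem gen_dim (K : Type) [Field K] (n u d k : ℕ) (hn : 1 ≤ n) (hkd : k < d)
    (hc : Cond n k d) :
    ∃ P : MvPolynomial (Io n (fun _ : Fin u => d)) K, P ≠ 0 ∧
      ∀ f : Fin u → MvPolynomial (Fin n) K, (∀ i, (f i).IsHomogeneous d) →
        eval (fun s : Io n (fun _ : Fin u => d) => (f s.1).coeff s.2.1) P ≠ 0 →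
        ∀ j ≤ k, finrank K ↥(part f (j + d)) =
          min (u * (Mon n j).card) (Mon n (j + d)).card := by
  classical
  have hM : ∀ j ≤ k, ∀ i : Fin u, (fun _ : Fin u => d) i ≤ j + d →
      SubM n (j + d - (fun _ : Fin u => d) i) ((fun _ : Fin u => d) i) := by
    intro j hj _ _
    show SubM n (j + d - d) d
    rw [Nat.add_sub_cancel]
    apply subM_of_monM init_thm
    exact Cond.monM hn (by omega) (hc.mono hn hj)
  choose P hP0 hP using fun j : Fin (k + 1) =>
    rank_eval n ((j : ℕ) + d) u (fun _ => d) K hn (hM j (by omega))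
  refine ⟨∏ j, P j, Finset.prod_ne_zero_iff.2 fun j _ => hP0 j, fun f hf hfP j hj => ?_⟩
  rw [map_prod, Finset.prod_ne_zero_iff] at hfP
  have h1 := hP ⟨j, by omega⟩ _ (hfP ⟨j, by omega⟩ (Finset.mem_univ _))
  have h2 := hilb_thm n (j + d) u (fun _ => d) K f hf
  rw [h2, h1, card_Ro]
  simp

lemma exists_forms (K : Type) [Field K] [Infinite K] {n u d : ℕ}
    {P : MvPolynomial (Io n (fun _ : Fin u => d)) K} (hP : P ≠ 0) :
    ∃ f : Fin u → MvPolynomial (Fin n) K, (∀ i, (f i).IsHomogeneous d) ∧
      eval (fun s : Io n (fun _ : Fin u => d) => (f s.1).coeff s.2.1) P ≠ 0 := by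
  classical
  obtain ⟨t, ht⟩ : ∃ t, eval t P ≠ 0 := by
    by_contra h
    push Not at h
    exact hP (MvPolynomial.funext fun x => by rw [h x, map_zero])
  refine ⟨fun i => ∑ m : Dg n d, monomial m.1 (t ⟨i, m⟩), fun i => ?_, ?_⟩
  · exact MvPolynomial.IsHomogeneous.sum _ _ _ fun m _ => isHomogeneous_monomial _ m.2
  · have h : (fun s : Io n (fun _ : Fin u => d) =>
        (∑ m : Dg n d, monomial m.1 (t ⟨s.1, m⟩)).coeff s.2.1) = t := by
      funext s
      rw [coeff_sum, Finset.sum_eq_single s.2]
      · rw [coeff_monomial, if_pos rfl]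
      · intro m _ hm
        rw [coeff_monomial, if_neg]
        intro h; exact hm (Subtype.ext h)
      · intro h; exact absurd (Finset.mem_univ _) h
    rw [h]
    exact ht

/-- the products -/
noncomputable abbrev pr {K : Type} [Field K] {n : ℕ} (j : ℕ)
    (V : Submodule K (MvPolynomial (Fin n) K)) : Submodule K (MvPolynomial (Fin n) K) :=
  Submodule.span K (Set.image2 (· * ·)
    ((homogeneousSubmodule (Fin n) K j : Submodule K (MvPolynomial (Fin n) K)) :
      Set (MvPolynomial (Fin n) K)) (V : Set (MvPolynomial (Fin n) K)))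

variable {K : Type} [Field K] {n : ℕ}

lemma pr_eq (j : ℕ) (V : Submodule K (MvPolynomial (Fin n) K)) :
    pr j V = homogeneousSubmodule (Fin n) K j * V := by
  rw [Submodule.mul_eq_span_mul_set]
  rfl

lemma pr_le (j d : ℕ) {V : Submodule K (MvPolynomial (Fin n) K)}
    (hV : V ≤ homogeneousSubmodule (Fin n) K d) :
    pr j V ≤ homogeneousSubmodule (Fin n) K (j + d) := by
  refine Submodule.span_le.2 ?_
  rintro _ ⟨x, hx, y, hy, rfl⟩
  exact IsHomogeneous.mul hx (hV hy)

lemma pr_part {u d : ℕ} {f : Fin u → MvPolynomial (Fin n) K}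
    (hf : ∀ i, (f i).IsHomogeneous d) (j : ℕ) : pr j (part f d) = part f (j + d) := by
  refine le_antisymm ?_ ?_
  · refine Submodule.span_le.2 ?_
    rintro _ ⟨x, hx, y, hy, rfl⟩
    exact ⟨Ideal.mul_mem_left _ _ hy.1, IsHomogeneous.mul hx hy.2⟩
  · have h := span_inf_eq' (D := j + d) (fun _ : Fin u => d) f hf
    show Submodule.restrictScalars K (Ideal.span (Set.range f)) ⊓
      homogeneousSubmodule (Fin n) K (j + d) ≤ _
    rw [h]
    refine Submodule.span_le.2 ?_
    rintro _ ⟨p, rfl⟩
    refine Submodule.subset_span ⟨monomial p.2.1 1, ?_, f p.1, ?_, rfl⟩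
    · refine isHomogeneous_monomial _ ?_
      have := p.2.2
      simp only at this
      omega
    · exact ⟨Ideal.subset_span ⟨p.1, rfl⟩, hf p.1⟩

lemma finrank_pr_le (j d : ℕ) {V : Submodule K (MvPolynomial (Fin n) K)}
    (hV : V ≤ homogeneousSubmodule (Fin n) K d) :
    finrank K ↥(pr j V) ≤ (Mon n j).card * finrank K V := by
  have : FiniteDimensional K ↥V := Submodule.finiteDimensional_of_le hV
  have h1 : LinearMap.range (Submodule.mulMap (homogeneousSubmodule (Fin n) K j) V) = pr j V := by
    rw [Submodule.mulMap_range, pr_eq]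
  have h2 := LinearMap.finrank_range_le (Submodule.mulMap (homogeneousSubmodule (Fin n) K j) V)
  rw [h1, Module.finrank_tensorProduct, dim_thm n j K] at h2
  exact h2

lemma finrank_pr_le' (j d : ℕ) {V : Submodule K (MvPolynomial (Fin n) K)}
    (hV : V ≤ homogeneousSubmodule (Fin n) K d) :
    finrank K ↥(pr j V) ≤ (Mon n (j + d)).card := by
  rw [← dim_thm n (j + d) K]
  exact Submodule.finrank_mono (pr_le j d hV)

lemma card_Mon'' {n : ℕ} (hn : 1 ≤ n) (i : ℕ) : (Mon n i).card = (n - 1 + i).choose (n - 1) := by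
  rw [card_Mon]
  obtain ⟨m, rfl⟩ : ∃ m, n = m + 1 := ⟨n - 1, by omega⟩
  have h1 : m + 1 + i - 1 = m + i := by omega
  have h2 : m + 1 - 1 = m := by omega
  rw [h1, h2, Nat.choose_symm_add]

lemma a_small {n d u : ℕ} (hn : 1 ≤ n) (hu : 1 ≤ u) {i : ℕ} (hi : i < 2 * d) :
    ∑ k ∈ Finset.range (u + 1), (-1 : ℤ) ^ k * (u.choose k : ℤ) *
        (if d * k ≤ i then ((n - 1 + i - d * k).choose (n - 1) : ℤ) else 0) =
      ((Mon n i).card : ℤ) - u * (if d ≤ i then ((Mon n (i - d)).card : ℤ) else 0) := by
  obtain ⟨v, rfl⟩ : ∃ v, u = v + 1 := ⟨u - 1, by omega⟩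
  rw [Finset.sum_range_succ', Finset.sum_range_succ', Finset.sum_eq_zero, card_Mon'' hn i]
  · simp only [zero_add, pow_one, Nat.choose_one_right, mul_one, pow_zero, Nat.choose_zero_right,
      mul_zero, Nat.zero_le, if_true, Nat.sub_zero, Nat.cast_one, one_mul]
    by_cases h : d ≤ i
    · rw [if_pos h, if_pos h, card_Mon'' hn (i - d)]
      have h1 : n - 1 + i - d = n - 1 + (i - d) := by omega
      rw [h1]
      ring
    · rw [if_neg h, if_neg h]
      ring
  · intro x _
    rw [if_neg, mul_zero]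
    intro h
    have : d * 2 ≤ d * (x + 1 + 1) := Nat.mul_le_mul_left d (by omega)
    omega

/-- the coefficients -/
noncomputable def aa (n d u i : ℕ) : ℤ :=
  ((Mon n i).card : ℤ) - u * (if d ≤ i then ((Mon n (i - d)).card : ℤ) else 0)

lemma aa_sign {n d u : ℕ} (hn : 1 ≤ n) {j j' : ℕ} (hjj' : j ≤ j') (hj' : j' < 2 * d)
    (h : aa n d u j ≤ 0) : aa n d u j' ≤ 0 := by
  have h1 := sign_thm n u j' (fun _ => d) hn (fun _ => hj') j j' hjj' le_rfl
  simp only [Finset.sum_const, Finset.card_univ, Fintype.card_fin, nsmul_eq_mul] at h1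
  exact h1 h

theorem main (K : Type) [Field K] [Infinite K] (n d u k : ℕ) (hn : 1 ≤ n) (hu : 1 ≤ u)
    (hkd : k < d) (hcond : Cond n k d)
    (hud : u ≤ finrank K (homogeneousSubmodule (Fin n) K d))
    (a : ℕ → ℤ) (ha : ∀ i : ℕ, a i = ∑ k ∈ Finset.range (u + 1),
          (-1 : ℤ) ^ k * (u.choose k : ℤ) *
            (if d * k ≤ i then ((n - 1 + i - d * k).choose (n - 1) : ℤ) else 0))
    (c : ℕ → ℤ)
    (hc : ∀ i : ℕ, ((∀ m : ℕ, m ≤ i → 0 ≤ a m) → c i = a i) ∧
                  ((∃ m : ℕ, m ≤ i ∧ a m < 0) → c i = 0)) (j : ℕ)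
    (hj : j ≤ k ∨ finrank K (homogeneousSubmodule (Fin n) K (d + k)) <
      u * finrank K (homogeneousSubmodule (Fin n) K k)) :
    (∀ V : Submodule K (MvPolynomial (Fin n) K), V ≤ homogeneousSubmodule (Fin n) K d →
        finrank K V = u →
        (finrank K ↥(pr j V) : ℤ) ≤
          (finrank K (homogeneousSubmodule (Fin n) K (j + d)) : ℤ) - c (j + d)) ∧
    (∃ V : Submodule K (MvPolynomial (Fin n) K), V ≤ homogeneousSubmodule (Fin n) K d ∧
        finrank K V = u ∧
        (finrank K ↥(pr j V) : ℤ) =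
          (finrank K (homogeneousSubmodule (Fin n) K (j + d)) : ℤ) - c (j + d)) := by
  have haa : ∀ i, i < 2 * d → a i = aa n d u i := fun i hi => by rw [ha, a_small hn hu hi, aa]
  have hsmall : ∀ j, j ≤ k → (Mon n (j + d)).card - c (j + d) =
      ((min (u * (Mon n j).card) (Mon n (j + d)).card : ℕ) : ℤ) := by
    intro j hj
    have h1 : a (j + d) = (Mon n (j + d)).card - u * (Mon n j).card := by
      rw [haa _ (by omega), aa, if_pos (by omega), Nat.add_sub_cancel]
    by_cases h : ∀ m, m ≤ j + d → 0 ≤ a m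
    · rw [(hc _).1 h, min_eq_left]
      · push_cast
        linarith
      · have := h (j + d) le_rfl
        rw [h1] at this
        have h3 : ((u * (Mon n j).card : ℕ) : ℤ) ≤ ((Mon n (j + d)).card : ℤ) := by
          push_cast
          linarith
        exact_mod_cast h3
    · push Not at h
      rw [(hc _).2 h, min_eq_right, sub_zero]
      obtain ⟨m, hm, hm2⟩ := h
      have h2 := aa_sign (u := u) hn hm (show j + d < 2 * d by omega)
        (by rw [← haa m (by omega)]; exact hm2.le)
      rw [← haa _ (by omega), h1] at h2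
      have h3 : ((Mon n (j + d)).card : ℤ) ≤ ((u * (Mon n j).card : ℕ) : ℤ) := by
        push_cast
        linarith
      exact_mod_cast h3
  have hlarge : k < j → c (j + d) = 0 := by
    intro hkj
    have h0 : finrank K (homogeneousSubmodule (Fin n) K (d + k)) <
      u * finrank K (homogeneousSubmodule (Fin n) K k) := by
      rcases hj with h | h
      · omega
      · exact h
    rw [dim_thm n _ K, dim_thm n _ K] at h0
    refine (hc _).2 ⟨k + d, by omega, ?_⟩
    rw [haa _ (by omega), aa, if_pos (by omega), Nat.add_sub_cancel, Nat.add_comm k d]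
    have h3 : ((Mon n (d + k)).card : ℤ) < ((u * (Mon n k).card : ℕ) : ℤ) := by
      exact_mod_cast h0
    push_cast at h3
    linarith
  constructor
  · intro V hV hVu
    rw [dim_thm n _ K]
    by_cases hjk : j ≤ k
    · rw [hsmall j hjk]
      have h1 := finrank_pr_le (K := K) j d hV
      have h2 := finrank_pr_le' (K := K) j d hV
      rw [hVu, mul_comm] at h1
      exact_mod_cast le_min h1 h2
    · rw [hlarge (by omega), sub_zero]
      exact_mod_cast finrank_pr_le' (K := K) j d hV
  · obtain ⟨P, hP0, hP⟩ := gen_dim K n u d k hn hkd hcond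
    obtain ⟨f, hf, hfP⟩ := exists_forms K hP0
    have h1 := hP f hf hfP
    refine ⟨part f d, inf_le_right, ?_, ?_⟩
    · have h2 := h1 0 (Nat.zero_le _)
      rw [Nat.zero_add, card_Mon n 0, Nat.choose_zero_right, mul_one] at h2
      rw [h2]
      rw [dim_thm n d K] at hud
      exact min_eq_left hud
    · rw [pr_part hf, dim_thm n _ K]
      by_cases hjk : j ≤ k
      · rw [hsmall j hjk, h1 j hjk]
      · rw [hlarge (by omega), sub_zero]
        have h0 : finrank K (homogeneousSubmodule (Fin n) K (d + k)) <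
            u * finrank K (homogeneousSubmodule (Fin n) K k) := by
          rcases hj with h | h
          · omega
          · exact h
        rw [dim_thm n _ K, dim_thm n _ K] at h0
        have h2 : hilb f (k + d) = 0 := by
          unfold hilb
          have h3 := h1 k le_rfl
          rw [Nat.add_comm d k] at h0
          rw [min_eq_right h0.le] at h3
          change (finrank K ↥(homogeneousSubmodule (Fin n) K (k + d)) : ℤ) -
            (finrank K ↥(part f (k + d)) : ℤ) = 0
          rw [h3, dim_thm n _ K, sub_self]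
        have h4 : part f (j + d) = homogeneousSubmodule (Fin n) K (j + d) :=
          le_antisymm inf_le_right fun g hg => ⟨all_of h2 (by omega) g hg, hg⟩
        rw [h4, dim_thm n _ K]

end Pool.Agent.TH206.FroE
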